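import Pool.Agent.N992.WQ.Main

/-!
# MP_0f76a4_ag: weight-monodromy and the Poincaré pairing on Galois invariant classes

Let `K` be a finite extension of `ℚ_p` and `ℓ ≠ p`. Let `X` run through the smooth rigid-analytic
varieties over finite totally ramified extensions `L` of `K` which have a formal model with projective
special fibre, and whose cohomology has unipotent inertia action. Each `X` over `K` becomes of this kind
over some `L`, and the problem does not change under finite extensions. Let `G` be the Galois group of `L`.
The following are equivalent.

1. For all `X` and `r`, the Poincaré pairing `H^(2 r)(X)(r)^G × H^(2 d - 2 r)(X)(d - r)^G → ℚ_ℓ` is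
  nondegenerate, `d = dim X`.
2. For all `X` and `m`, the weight-monodromy conjecture holds for `H^m(X)`, and the Frobenius is
  semisimple on `H^m(X)`.

This is the analogue over local fields of the fact that over finite fields the nondegeneracy of the
pairing on the Tate classes is the semisimplicity of the eigenvalue one; the weight-monodromy conjecture
comes in addition. The point is that 1 implies 2.

Sketch of 1 ⇒ 2. Let `v ∈ H^(2 r - 1)(X)(r)^G` and let `E` be a Tate curve, `N e_2 = e_1` in `H^1(E)`. Then
`v ⊗ e_1 = N (v ⊗ e_2)` is an invariant class in degree `2 r` of `X × E`, orthogonal to all invariant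
classes, so it is zero and `v = 0`. By the theorem of `MP_cd312e_ag.NoInvariantsBelowTate`, whose proof
works here, this vanishing for all `X` and `r` gives the weight-monodromy conjecture. If the Frobenius is
not semisimple on `H^m(X)`, there are `a` and `b ≠ 0` of weight `m + t` in the kernel of `N ^ (t + 1)` with
`F a = α a + b`, `F b = α b`. They give two such vectors in `H^m(X) ⊗ Sym ^ t H^1(E)`, hence in
`H^(m + t)(X × E ^ t)`, killed by `N`, of weight equal to the degree. The product with the dual eigenclass of
an abelian variety with good reduction turns the second into an invariant class of even degree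
orthogonal to all invariant classes. So `b = 0`.
-/

namespace Pool.Agent.Results.MP_0f76a4_ag.PairingOnInvariants

open Pool.Agent.N992.WL Pool.Agent.N992.WQ

theorem result (T : RigidTheory) (hT : IsRigidTheory T) :
    (∀ X r, Nondegenerate T X r) ↔
      (∀ X m, WeightMonodromy T.th X m) ∧ ∀ X m, FrobeniusSemisimple T X m :=
  main hT

end Pool.Agent.Results.MP_0f76a4_ag.PairingOnInvariants
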