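import Pool.Agent.N184.LF.Main

/-!
# The weight-monodromy conjecture for rigid-analytic fibres of projective families

Let `B` be a ring of finite type over `ℤ`, `𝔡` an ideal of `B` and `𝒳` a projective scheme over `Spec B`,
smooth outside `V(𝔡)`. There is a constant `C` such that the weight-monodromy conjecture holds, in all
degrees and for all `ℓ ≠ p`, for the fibre `X_s` over every point `s` of `Spec B ∖ V(𝔡)` with values in a
`p`-adic field which extends to a point of `Spec B` with values in its ring of integers `O`, if

* `p ≥ C`, or
* `p` is divisible by the `C`-th power of the discriminant ideal `s(𝔡) O`.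

The analytification of `X_s` is a smooth rigid-analytic variety with a formal model whose special fibre is
projective: the formal completion of the pullback of `𝒳` to `O`.
-/

set_option autoImplicit false

namespace Pool.Agent.Results.MP_0f76a4_ag.ProjectiveFamilies

open Pool.Agent.N184.LF

/-- Let `B` be a ring of finite type over `ℤ`, `𝔡` an ideal of `B`, and `X` the cohomology of the fibres of
a projective scheme over `Spec B` which is smooth outside `V(𝔡)`; `Ω ℓ` is an algebraic closure of `ℚ_ℓ`
(or any field of characteristic zero). Then there is a constant `C` such that for every prime number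
`p`, every `p`-adic ring `O` (with fraction field `K` of arbitrary ramification) and every
`s : B → O` with `s(𝔡) ≠ 0`: if `C ≤ p` or `p ∈ (s(𝔡) O) ^ C`, then the assertion of the weight-monodromy
conjecture holds for all cohomology groups `H^k(X_s)` with coefficients in `Ω ℓ`, `ℓ ≠ p`, all graded
pieces of the monodromy filtration and all elements of the Weil group of `K`. -/
theorem result {B : Type} [CommRing B] [Algebra.FiniteType ℤ B] (𝔡 : Ideal B) {Ω : ℕ → Type}
    [∀ ℓ, Field (Ω ℓ)] [∀ ℓ, CharZero (Ω ℓ)] (X : ProjectiveFamily 𝔡 Ω) :
    ∃ C : ℕ, ∀ (p : ℕ) (O : Type) [CommRing O] [IsDomain O] [IsDiscreteValuationRing O]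
      (s : B →+* O), p.Prime → IsPadic p O → 𝔡.map s ≠ ⊥ →
        (C ≤ p ∨ (p : O) ∈ 𝔡.map s ^ C) → X.WeightMonodromy p O s :=
  X.exists_bound

end Pool.Agent.Results.MP_0f76a4_ag.ProjectiveFamilies
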