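import Pool.Agent.N536.RG.Law

/-!
# Weight-monodromy for rigid-analytic varieties and the wrong poles of the local L-factors

Let `K` be a `p`-adic field with residue field with `q` elements, and consider a class of smooth proper
rigid-analytic varieties over `K` which is closed under products, for example the smooth varieties with
an admissible formal model with projective special fibre. Their cohomology has the following known
properties (`RigidClass.IsRigid`): the eigenvalues of a geometric Frobenius `F` are `q`-Weil numbers of
integral weights, the monodromy operator satisfies `N F = q F N`, Poincaré duality between `H^m` and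
`H^(2d-m)`, and the Künneth formula. There is no hard Lefschetz theorem.

For a variety `Y` let `i(Y)` be the dimension of the kernel of `N` on the whole cohomology: these are
the poles of the local L-factors of `Y` over a finite extension of `K`. If the weight-monodromy conjecture
(`MWPure q m` for all `m`) holds for `Y`, all eigenvalues of `F` on the kernel of `N` on `H^m(Y)` have
weight at most `m`. Let `w(Y) = wrong (H Y) q 1` be the number of the wrong eigenvalues, the ones of weight
greater than `m`, and let `w'(Y) = wrong (H Y) q 2` be the number of those of weight at least `m + 2`.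

Theorem.

* `w(X) + w'(X) + p(X) = i(X)`, where `p(X)` is the number of the eigenvalues of `F` on the `H^m(X)` of
  weight `m` or `m + 1`.
* The conjecture holds for `X` if and only if there are no wrong eigenvalues on `X × X`; then there are
  none on all the powers of `X`.
* If the conjecture fails for `X`, then `(w(X^n) + w'(X^n)) / i(X^n)` tends to `1 - ρ` and
  `liminf w(X^n) / i(X^n) ≥ (1 - ρ) / 2 > 0`, where `ρ < 1` is the square root of the quotient of
  `2 ∑ k rank (N ^ k)` and the sum of the squares `(weight - m)^2` over the eigenvalues of `F` on the
  `H^m(X)`.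
* Hence the conjecture holds for all varieties of the class as soon as the share `w(Y) / i(Y)` of the
  wrong eigenvalues is at most `f(b(Y))` for all `Y`, where `b(Y)` is the sum of the Betti numbers and
  `f(b)` tends to `0`.

Proof. The cohomology of `Y` has a basis of strings `x, N x, N^2 x, ...` of vectors with weights. The
orthogonal complement of the sum of the range of `N` and of the part of excess at least `0` is the part
of the kernel of `N` of excess at least `1`; this gives the first formula. The others follow from the
first, from the injection between pairs of basis vectors and the local limit theorem of the library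
(`Pool.Agent.Y163.MW`), and from a Cauchy-Schwarz argument if `N = 0`.
-/

set_option autoImplicit false

open Module Filter Topology

namespace Pool.Agent.Results.MP_0f76a4_ag.WrongPoles

universe u v w

open Pool.Agent.Y163.MW Pool.Agent.N536.RG

/-- **The law of the wrong poles.** -/
theorem result {Ω : Type w} [Field Ω] [CharZero Ω] [IsAlgClosed Ω] {T : RigidClass.{u, v, w} Ω}
    {q : ℕ} (hT : T.IsRigid q) (hq : 1 < q) :
    (∀ X : T.Obj, wrong (T.H X) q 1 + wrong (T.H X) q 2 + (T.H X).pred q = (T.H X).inv ∧
      ((∀ m, (T.H X).MWPure q m) ↔ wrong (T.H (T.prod X X)) q 1 = 0) ∧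
      ((∀ m, (T.H X).MWPure q m) → ∀ n, wrong (T.H (T.pow X n)) q 1 = 0) ∧
      (¬ (∀ m, (T.H X).MWPure q m) → ∃ ρ : ℝ, 0 ≤ ρ ∧ ρ < 1 ∧
        ρ ^ 2 * (T.H X).totWeightMoment q = (T.H X).totRankMoment ∧
        Tendsto (fun n : ℕ => ((wrong (T.H (T.pow X n)) q 1 : ℝ) +
          wrong (T.H (T.pow X n)) q 2) / ((T.H (T.pow X n)).inv : ℝ)) atTop (𝓝 (1 - ρ)) ∧
        ∀ ε : ℝ, 0 < ε → ∀ᶠ n : ℕ in atTop, ((1 - ρ) / 2 - ε) * ((T.H (T.pow X n)).inv : ℝ) ≤
          wrong (T.H (T.pow X n)) q 1)) ∧
    ∀ f : ℕ → ℝ, Tendsto f atTop (𝓝 0) →
      (∀ X : T.Obj, (wrong (T.H X) q 1 : ℝ) ≤ f (finrank Ω (T.H X).V) * (T.H X).inv) →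
      ∀ (X : T.Obj) (m : ℕ), (T.H X).MWPure q m :=
  law hT hq

end Pool.Agent.Results.MP_0f76a4_ag.WrongPoles
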